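import Mathlib

/-!
# Primitive trinomials and pentanomials of the same degree over `GF(2)`

For every `n ≡ 2 (mod 4)` with `n ≥ 6`: if a primitive trinomial of degree `n` exists over
`GF(2)`, then a primitive pentanomial of degree `n` exists.

Idea: if `α` is a root of the primitive trinomial, then `5` is prime to `2 ^ n - 1`, and the
minimal polynomial of `α ^ 5` is always a pentanomial.
-/

namespace Pool.Agent.Results.MP_4f8f6c_nt.TwoModFour

open Polynomial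

/-- A polynomial `f` over `GF(2)` of degree `n ≥ 1` with `f(0) = 1` is primitive if it is
irreducible and the least positive `t` with `f ∣ X ^ t + 1` is `t = 2 ^ n - 1`. -/
def IsPrimitivePoly (f : (ZMod 2)[X]) : Prop :=
  1 ≤ f.natDegree ∧ f.coeff 0 = 1 ∧ Irreducible f ∧
    IsLeast {t : ℕ | 0 < t ∧ f ∣ X ^ t + 1} (2 ^ f.natDegree - 1)

section General

variable {K : Type*} [Field K] [Finite K] [Algebra (ZMod 2) K]

lemma charTwo (K : Type*) [Field K] [Algebra (ZMod 2) K] : CharP K 2 :=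
  charP_of_injective_algebraMap (algebraMap (ZMod 2) K).injective 2

/-- the order of an element is at most `2 ^ d - 1`, `d` the degree of its minimal polynomial -/
lemma pow_card_minpoly (β : K) (hβ : β ≠ 0) :
    β ^ (2 ^ (minpoly (ZMod 2) β).natDegree - 1) = 1 := by
  classical
  have hint : IsIntegral (ZMod 2) β := Algebra.IsIntegral.isIntegral β
  have hfr := IntermediateField.adjoin.finrank hint
  have : Fintype (IntermediateField.adjoin (ZMod 2) {β}) := Fintype.ofFinite _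
  have hcard : Fintype.card (IntermediateField.adjoin (ZMod 2) {β})
      = 2 ^ (minpoly (ZMod 2) β).natDegree := by
    rw [Module.card_eq_pow_finrank (K := ZMod 2), hfr, ZMod.card]
  let b : IntermediateField.adjoin (ZMod 2) {β} := IntermediateField.AdjoinSimple.gen (ZMod 2) β
  have hb : (b : K) = β := IntermediateField.AdjoinSimple.coe_gen _ _
  have hb0 : b ≠ 0 := by
    intro h
    apply hβ
    rw [← hb, h]; rfl
  have h1 := FiniteField.pow_card_sub_one_eq_one b hb0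
  rw [hcard] at h1
  have h2 := congrArg (fun z : IntermediateField.adjoin (ZMod 2) {β} => (z : K)) h1
  simpa [hb] using h2

lemma primitive_of_order (β : K) (n : ℕ) (hn : 1 ≤ n) (hord : orderOf β = 2 ^ n - 1)
    (g : (ZMod 2)[X]) (hg : g.natDegree = n) (hg0 : g.coeff 0 = 1)
    (hroot : aeval β g = 0) : IsPrimitivePoly g := by
  have := charTwo K
  have hpos : 0 < 2 ^ n - 1 := by
    have : 2 ^ 1 ≤ 2 ^ n := Nat.pow_le_pow_right (by norm_num) hn
    omega
  have hβ : β ≠ 0 := by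
    rintro rfl
    have h := pow_orderOf_eq_one (0 : K)
    rw [hord, zero_pow hpos.ne'] at h
    exact zero_ne_one h
  have hint : IsIntegral (ZMod 2) β := Algebra.IsIntegral.isIntegral β
  have hgne : g ≠ 0 := by
    rintro rfl; simp at hg0
  have hdvd : minpoly (ZMod 2) β ∣ g := minpoly.dvd _ _ hroot
  have hle : (minpoly (ZMod 2) β).natDegree ≤ n := hg ▸ natDegree_le_of_dvd hdvd hgne
  have hge : n ≤ (minpoly (ZMod 2) β).natDegree := by
    have h1 := orderOf_dvd_of_pow_eq_one (pow_card_minpoly β hβ)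
    rw [hord] at h1
    have hd : 1 ≤ (minpoly (ZMod 2) β).natDegree := minpoly.natDegree_pos hint
    have h3 : 0 < 2 ^ (minpoly (ZMod 2) β).natDegree - 1 := by
      have : 2 ^ 1 ≤ 2 ^ (minpoly (ZMod 2) β).natDegree := Nat.pow_le_pow_right (by norm_num) hd
      omega
    have h4 := Nat.le_of_dvd h3 h1
    have h5 : 2 ^ n ≤ 2 ^ (minpoly (ZMod 2) β).natDegree := by omega
    exact (Nat.pow_le_pow_iff_right (by norm_num)).1 h5
  have hdeg : (minpoly (ZMod 2) β).natDegree = n := le_antisymm hle hge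
  obtain ⟨c, hc⟩ := hdvd
  have hc0 : c ≠ 0 := by rintro rfl; simp at hc; exact hgne hc
  have hcdeg : c.natDegree = 0 := by
    have := natDegree_mul (minpoly.ne_zero hint) hc0
    rw [← hc, hg, hdeg] at this
    omega
  have hassoc : Associated (minpoly (ZMod 2) β) g := by
    rw [hc]
    have hu : IsUnit c := by
      rw [natDegree_eq_zero] at hcdeg
      obtain ⟨x, hx⟩ := hcdeg
      rw [← hx]
      have : x ≠ 0 := by rintro rfl; simp at hx; exact hc0 hx.symm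
      exact isUnit_C.2 (isUnit_iff_ne_zero.2 this)
    exact associated_mul_unit_right _ _ hu
  have hirr : Irreducible g := hassoc.irreducible (minpoly.irreducible hint)
  have key : ∀ t : ℕ, g ∣ X ^ t + 1 ↔ β ^ t = 1 := by
    intro t
    rw [← hassoc.dvd_iff_dvd_left]
    rw [minpoly.dvd_iff]
    simp only [map_add, map_pow, aeval_X, map_one]
    constructor
    · intro h
      have := CharTwo.add_eq_zero.1 h
      exact this
    · intro h
      rw [h]; exact CharTwo.add_self_eq_zero 1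
  refine ⟨by omega, hg0, hirr, ?_⟩
  rw [hg]
  constructor
  · refine ⟨hpos, (key _).2 ?_⟩
    rw [← hord]; exact pow_orderOf_eq_one β
  · rintro t ⟨ht, hdt⟩
    have := orderOf_dvd_of_pow_eq_one ((key t).1 hdt)
    rw [hord] at this
    exact Nat.le_of_dvd ht this

end General

/-- Transfer: if `f` is primitive of degree `n`, `α` the root of `f` in `AdjoinRoot f`, `5` is prime
to `2 ^ n - 1`, and `g` is monic-like of degree `n` with constant term `1` and `g (α ^ 5) = 0`,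
then `g` is primitive. -/
lemma transfer (f : (ZMod 2)[X]) (hf : IsPrimitivePoly f) (h4 : f.natDegree % 4 = 2)
    (g : (ZMod 2)[X]) (hg : g.natDegree = f.natDegree) (hg0 : g.coeff 0 = 1)
    (hroot : f ∣ g.comp (X ^ 5)) : IsPrimitivePoly g := by
  obtain ⟨hn, hf0, hirr, hleast⟩ := hf
  have : Fact (Irreducible f) := ⟨hirr⟩
  have hfne : f ≠ 0 := hirr.ne_zero
  have : FiniteDimensional (ZMod 2) (AdjoinRoot f) := (AdjoinRoot.powerBasis hfne).finite
  have : Finite (AdjoinRoot f) := Module.finite_of_finite (ZMod 2)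
  have := charTwo (AdjoinRoot f)
  set α : AdjoinRoot f := AdjoinRoot.root f with hα
  have key : ∀ t : ℕ, f ∣ X ^ t + 1 ↔ α ^ t = 1 := by
    intro t
    rw [← AdjoinRoot.mk_eq_zero]
    simp only [map_add, map_pow, AdjoinRoot.mk_X, map_one]
    exact CharTwo.add_eq_zero
  have hpos : 0 < 2 ^ f.natDegree - 1 := hleast.1.1
  have hord : orderOf α = 2 ^ f.natDegree - 1 := by
    apply le_antisymm
    · exact orderOf_le_of_pow_eq_one hpos ((key _).1 hleast.1.2)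
    · apply hleast.2
      refine ⟨orderOf_pos_iff.2 ?_, (key _).2 (pow_orderOf_eq_one α)⟩
      exact isOfFinOrder_iff_pow_eq_one.2 ⟨_, hpos, (key _).1 hleast.1.2⟩
  have hcop : Nat.Coprime (2 ^ f.natDegree - 1) 5 := by
    rw [Nat.coprime_comm, Nat.Prime.coprime_iff_not_dvd (by norm_num)]
    intro hdvd
    obtain ⟨k, hk⟩ : ∃ k, f.natDegree = 4 * k + 2 := ⟨f.natDegree / 4, by omega⟩
    have h1 : 2 ^ f.natDegree % 5 = 4 := by
      rw [hk, pow_add, pow_mul, Nat.mul_mod, Nat.pow_mod]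
      norm_num
    omega
  have hord5 : orderOf (α ^ 5) = 2 ^ f.natDegree - 1 := by
    rw [← hord] at hcop
    rw [Nat.Coprime.orderOf_pow hcop, hord]
  refine primitive_of_order (α ^ 5) f.natDegree hn hord5 g hg hg0 ?_
  have h1 : AdjoinRoot.mk f (g.comp (X ^ 5)) = 0 := AdjoinRoot.mk_eq_zero.2 hroot
  rw [← AdjoinRoot.aeval_eq] at h1
  simpa [aeval_comp] using h1



lemma two_eq_zero_poly : (2 : (ZMod 2)[X]) = 0 := CharTwo.two_eq_zero

lemma dvd_form_one (u v w : (ZMod 2)[X]) :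
    (u + v + w) ∣ w ^ 5 + u ^ 5 + u ^ 4 * v + u * v ^ 4 + v ^ 5 := by
  have h2 := two_eq_zero_poly
  refine ⟨w ^ 4 - w ^ 3 * (u + v) + w ^ 2 * (u + v) ^ 2 - w * (u + v) ^ 3 + (u + v) ^ 4, ?_⟩
  linear_combination (-(2 * u ^ 4 * v + 5 * u ^ 3 * v ^ 2 + 5 * u ^ 2 * v ^ 3 + 2 * u * v ^ 4)) * h2

lemma dvd_form_two (u v w : (ZMod 2)[X]) :
    (u + v + w) ∣ u ^ 5 + v ^ 5 + w ^ 5 + u * v ^ 3 * w + u ^ 2 * v * w ^ 2 := by
  have h2 := two_eq_zero_poly
  refine ⟨w ^ 4 - (u + v) * w ^ 3 + (u + v) ^ 2 * w ^ 2 + (5 * u ^ 2 * v - (u + v) ^ 3) * w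
    + ((u + v) ^ 4 - 5 * u * v ^ 3 - 5 * u ^ 2 * v * (u + v)), ?_⟩
  linear_combination (3 * u * v ^ 3 * w - 2 * u ^ 2 * v * w ^ 2) * h2

lemma natDegree_penta (n p q r : ℕ) (hp : p < n) (hq : q < n) (hr : r < n) :
    (X ^ n + X ^ p + X ^ q + X ^ r + 1 : (ZMod 2)[X]).natDegree = n := by
  have h : (X ^ n + X ^ p + X ^ q + X ^ r + 1 : (ZMod 2)[X])
      = X ^ n + (X ^ p + X ^ q + X ^ r + 1) := by ring
  rw [h, natDegree_add_eq_left_of_natDegree_lt, natDegree_X_pow]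
  rw [natDegree_X_pow]
  refine lt_of_le_of_lt (natDegree_add_le _ _) (max_lt (lt_of_le_of_lt (natDegree_add_le _ _)
    (max_lt (lt_of_le_of_lt (natDegree_add_le _ _) (max_lt ?_ ?_)) ?_)) ?_)
  all_goals simp
  all_goals omega

lemma coeff_penta (n p q r : ℕ) (hn : 0 < n) (hp : 0 < p) (hq : 0 < q) (hr : 0 < r) :
    (X ^ n + X ^ p + X ^ q + X ^ r + 1 : (ZMod 2)[X]).coeff 0 = 1 := by
  simp only [coeff_add, coeff_X_pow, coeff_one]
  simp [hn.ne, hp.ne, hq.ne, hr.ne]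

lemma natDegree_tri (n a : ℕ) (ha : a < n) :
    (X ^ n + X ^ a + 1 : (ZMod 2)[X]).natDegree = n := by
  have h : (X ^ n + X ^ a + 1 : (ZMod 2)[X]) = X ^ n + (X ^ a + 1) := by ring
  rw [h, natDegree_add_eq_left_of_natDegree_lt, natDegree_X_pow]
  rw [natDegree_X_pow]
  refine lt_of_le_of_lt (natDegree_add_le _ _) (max_lt ?_ ?_)
  all_goals simp
  all_goals omega

lemma sorted (n p q r : ℕ) (hp : 0 < p) (hq : 0 < q) (hr : 0 < r) (hpn : p < n) (hqn : q < n)
    (hrn : r < n) (hpq : p ≠ q) (hpr : p ≠ r) (hqr : q ≠ r)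
    (h : IsPrimitivePoly (X ^ n + X ^ p + X ^ q + X ^ r + 1)) :
    ∃ a₁ a₂ a₃ : ℕ, 0 < a₁ ∧ a₁ < a₂ ∧ a₂ < a₃ ∧ a₃ < n ∧
      IsPrimitivePoly (X ^ n + X ^ a₃ + X ^ a₂ + X ^ a₁ + 1) := by
  rcases lt_or_gt_of_ne hpq with h1 | h1 <;> rcases lt_or_gt_of_ne hpr with h2 | h2 <;>
    rcases lt_or_gt_of_ne hqr with h3 | h3
  · exact ⟨p, q, r, hp, h1, h3, hrn, by convert h using 1; ring⟩
  · exact ⟨p, r, q, hp, h2, h3, hqn, by convert h using 1; ring⟩
  · omega
  · exact ⟨r, p, q, hr, h2, h1, hqn, by convert h using 1; ring⟩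
  · exact ⟨q, p, r, hq, h1, h2, hrn, by convert h using 1; ring⟩
  · omega
  · exact ⟨q, r, p, hq, h3, h2, hpn, by convert h using 1; ring⟩
  · exact ⟨r, q, p, hr, h3, h1, hpn, by convert h using 1⟩

lemma finish (n a p q r : ℕ) (h4 : n % 4 = 2) (ha : a < n)
    (hf : IsPrimitivePoly (X ^ n + X ^ a + 1))
    (hp : 0 < p) (hq : 0 < q) (hr : 0 < r) (hpn : p < n) (hqn : q < n)
    (hrn : r < n) (hpq : p ≠ q) (hpr : p ≠ r) (hqr : q ≠ r)
    (hdvd : (X ^ n + X ^ a + 1 : (ZMod 2)[X]) ∣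
      (X ^ 5) ^ n + (X ^ 5) ^ p + (X ^ 5) ^ q + (X ^ 5) ^ r + 1) :
    ∃ a₁ a₂ a₃ : ℕ, 0 < a₁ ∧ a₁ < a₂ ∧ a₂ < a₃ ∧ a₃ < n ∧
      IsPrimitivePoly (X ^ n + X ^ a₃ + X ^ a₂ + X ^ a₁ + 1) := by
  refine sorted n p q r hp hq hr hpn hqn hrn hpq hpr hqr ?_
  have hdeg := natDegree_tri n a ha
  refine transfer _ hf (by rw [hdeg]; exact h4) _ ?_ ?_ ?_
  · rw [hdeg]; exact natDegree_penta n p q r hpn hqn hrn
  · exact coeff_penta n p q r (by omega) hp hq hr
  · simpa only [add_comp, pow_comp, X_comp, one_comp] using hdvd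

lemma no_small (n a : ℕ) (hn : 6 ≤ n) (ha : a < n) (hf : IsPrimitivePoly (X ^ n + X ^ a + 1))
    (t : ℕ) (ht : 0 < t) (htn : t ≤ 7 * n) (hdvd : (X ^ n + X ^ a + 1 : (ZMod 2)[X]) ∣ X ^ t + 1) :
    False := by
  have h := hf.2.2.2.2 ⟨ht, hdvd⟩
  rw [natDegree_tri n a ha] at h
  have key : ∀ m : ℕ, 7 * (m + 6) + 1 < 2 ^ (m + 6) := by
    intro m
    induction m with
    | zero => norm_num
    | succ k ih => rw [show k + 1 + 6 = (k + 6) + 1 by ring, pow_succ]; omega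
  have := key (n - 6)
  rw [Nat.sub_add_cancel hn] at this
  omega

lemma pw (i j k l m : ℕ) (e : 5 * i = j * k + l * m) :
    ((X ^ 5) ^ i : (ZMod 2)[X]) = (X ^ k) ^ j * (X ^ m) ^ l := by
  rw [← pow_mul, ← pow_mul, ← pow_mul, ← pow_add]
  congr 1
  rw [e]; ring

/-- The conclusion of the theorem. -/
def HasPrimitivePentanomial (n : ℕ) : Prop :=
  ∃ a₁ a₂ a₃ : ℕ, 0 < a₁ ∧ a₁ < a₂ ∧ a₂ < a₃ ∧ a₃ < n ∧
    IsPrimitivePoly (X ^ n + X ^ a₃ + X ^ a₂ + X ^ a₁ + 1)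

lemma case_one (n a b : ℕ) (h4 : n % 4 = 2) (ha0 : 0 < a) (han : a < n)
    (hf : IsPrimitivePoly (X ^ n + X ^ a + 1)) (hb : a = 5 * b) : HasPrimitivePentanomial n := by
  refine finish n a a (4 * b) b h4 han hf (by omega) (by omega) (by omega) (by omega) (by omega)
    (by omega) (by omega) (by omega) (by omega) ?_
  have h := dvd_form_one (X ^ a) 1 (X ^ n)
  rw [pw n 5 n 0 0 (by omega), pw a 5 a 0 0 (by omega), pw (4 * b) 4 a 0 0 (by omega),
    pw b 1 a 0 0 (by omega)]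
  convert h using 1 <;> ring

lemma case_two (n a c : ℕ) (h4 : n % 4 = 2) (ha0 : 0 < a) (han : a < n)
    (hf : IsPrimitivePoly (X ^ n + X ^ a + 1)) (hc : n = 5 * c) (e4 : n ≠ 5 * a)
    (e5 : a ≠ 4 * c) : HasPrimitivePentanomial n := by
  refine finish n a a (4 * c) c h4 han hf (by omega) (by omega) (by omega) (by omega) (by omega)
    (by omega) (by omega) (by omega) (by omega) ?_
  have h := dvd_form_one (X ^ n) 1 (X ^ a)
  rw [pw n 5 n 0 0 (by omega), pw a 5 a 0 0 (by omega), pw (4 * c) 4 n 0 0 (by omega),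
    pw c 1 n 0 0 (by omega)]
  convert h using 1 <;> ring

lemma case_three (n a p q : ℕ) (h4 : n % 4 = 2) (ha0 : 0 < a) (han : a < n)
    (hf : IsPrimitivePoly (X ^ n + X ^ a + 1)) (hp : 5 * p = a + 4 * n) (hq : 5 * q = 4 * a + n) :
    HasPrimitivePentanomial n := by
  refine finish n a a p q h4 han hf (by omega) (by omega) (by omega) (by omega) (by omega)
    (by omega) (by omega) (by omega) (by omega) ?_
  have h := dvd_form_one (X ^ n) (X ^ a) 1
  rw [pw n 5 n 0 0 (by omega), pw a 5 a 0 0 (by omega), pw p 4 n 1 a (by omega),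
    pw q 1 n 4 a (by omega)]
  convert h using 1 <;> ring

lemma case_four (n a p : ℕ) (h4 : n % 4 = 2) (ha0 : 0 < a) (han : a < n)
    (hf : IsPrimitivePoly (X ^ n + X ^ a + 1)) (hp : 5 * p = a + n) (e3 : 2 * n ≠ 3 * a) :
    HasPrimitivePentanomial n := by
  refine finish n a a p (2 * p) h4 han hf (by omega) (by omega) (by omega) (by omega) (by omega)
    (by omega) (by omega) (by omega) (by omega) ?_
  have h := dvd_form_two (X ^ a) 1 (X ^ n)
  rw [pw n 5 n 0 0 (by omega), pw a 5 a 0 0 (by omega), pw p 1 a 1 n (by omega),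
    pw (2 * p) 2 a 2 n (by omega)]
  convert h using 1 <;> ring

lemma case_five (n a p q : ℕ) (h4 : n % 4 = 2) (ha0 : 0 < a) (han : a < n)
    (hf : IsPrimitivePoly (X ^ n + X ^ a + 1)) (hp : 5 * p = 3 * a + n) (hq : 5 * q = a + 2 * n)
    (e1 : n ≠ 2 * a) : HasPrimitivePentanomial n := by
  refine finish n a a p q h4 han hf (by omega) (by omega) (by omega) (by omega) (by omega)
    (by omega) (by omega) (by omega) (by omega) ?_
  have h := dvd_form_two 1 (X ^ a) (X ^ n)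
  rw [pw n 5 n 0 0 (by omega), pw a 5 a 0 0 (by omega), pw p 3 a 1 n (by omega),
    pw q 1 a 2 n (by omega)]
  convert h using 1 <;> ring

lemma case_six (n a p q : ℕ) (h4 : n % 4 = 2) (ha0 : 0 < a) (han : a < n)
    (hf : IsPrimitivePoly (X ^ n + X ^ a + 1)) (hp : 5 * p = a + 3 * n) (hq : 5 * q = 2 * a + n)
    (e2 : n ≠ 3 * a) : HasPrimitivePentanomial n := by
  refine finish n a a p q h4 han hf (by omega) (by omega) (by omega) (by omega) (by omega)
    (by omega) (by omega) (by omega) (by omega) ?_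
  have h := dvd_form_two 1 (X ^ n) (X ^ a)
  rw [pw n 5 n 0 0 (by omega), pw a 5 a 0 0 (by omega), pw p 1 a 3 n (by omega),
    pw q 2 a 1 n (by omega)]
  convert h using 1 <;> ring

lemma mod_five (a n : ℕ) (c1 : ¬ a % 5 = 0) (c2 : ¬ n % 5 = 0) (c3 : ¬ n % 5 = a % 5)
    (c4 : ¬ (a + n) % 5 = 0) (c5 : ¬ (2 * a) % 5 = n % 5) : (2 * n) % 5 = a % 5 := by
  have ha5 : a % 5 = 1 ∨ a % 5 = 2 ∨ a % 5 = 3 ∨ a % 5 = 4 := by omega
  have hn5 : n % 5 = 1 ∨ n % 5 = 2 ∨ n % 5 = 3 ∨ n % 5 = 4 := by omega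
  rcases ha5 with h | h | h | h <;> rcases hn5 with h' | h' | h' | h' <;> omega

/-- For every `n ≡ 2 (mod 4)`, `n ≥ 6`: if some trinomial of degree `n` is primitive over `GF(2)`,
then some pentanomial of degree `n` is primitive over `GF(2)`. -/
theorem result (n : ℕ) (hn : 6 ≤ n) (h4 : n % 4 = 2)
    (h : ∃ a : ℕ, 0 < a ∧ a < n ∧ IsPrimitivePoly (X ^ n + X ^ a + 1)) :
    ∃ a₁ a₂ a₃ : ℕ, 0 < a₁ ∧ a₁ < a₂ ∧ a₂ < a₃ ∧ a₃ < n ∧
      IsPrimitivePoly (X ^ n + X ^ a₃ + X ^ a₂ + X ^ a₁ + 1) := by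
  obtain ⟨a, ha0, han, hf⟩ := h
  have h2 := two_eq_zero_poly
  -- exclude the coincidences
  have e1 : n ≠ 2 * a := by
    intro e
    refine no_small n a hn han hf (3 * a) (by omega) (by omega) ⟨X ^ a + 1, ?_⟩
    rw [e]
    have : (X ^ (3 * a) : (ZMod 2)[X]) = (X ^ a) ^ 3 := by rw [← pow_mul]; congr 1; ring
    rw [this]
    have : (X ^ (2 * a) : (ZMod 2)[X]) = (X ^ a) ^ 2 := by rw [← pow_mul]; congr 1; ring
    rw [this]
    generalize (X ^ a : (ZMod 2)[X]) = y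
    linear_combination (-(y ^ 2 + y)) * h2
  have e2 : n ≠ 3 * a := by
    intro e
    refine no_small n a hn han hf (7 * a) (by omega) (by omega)
      ⟨(X ^ a + 1) * ((X ^ a) ^ 3 + (X ^ a) ^ 2 + 1), ?_⟩
    rw [e]
    have : (X ^ (7 * a) : (ZMod 2)[X]) = (X ^ a) ^ 7 := by rw [← pow_mul]; congr 1; ring
    rw [this]
    have : (X ^ (3 * a) : (ZMod 2)[X]) = (X ^ a) ^ 3 := by rw [← pow_mul]; congr 1; ring
    rw [this]
    generalize (X ^ a : (ZMod 2)[X]) = y
    linear_combination (-(y ^ 6 + y ^ 5 + 2 * y ^ 4 + 2 * y ^ 3 + y ^ 2 + y)) * h2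
  have e3 : 2 * n ≠ 3 * a := by
    intro e
    obtain ⟨b, hb⟩ : ∃ b, a = 2 * b := ⟨a / 2, by omega⟩
    have hnb : n = 3 * b := by omega
    refine no_small n a hn han hf (7 * b) (by omega) (by omega)
      ⟨(X ^ b + 1) * ((X ^ b) ^ 3 + (X ^ b) + 1), ?_⟩
    rw [hnb, hb]
    have : (X ^ (7 * b) : (ZMod 2)[X]) = (X ^ b) ^ 7 := by rw [← pow_mul]; congr 1; ring
    rw [this]
    have : (X ^ (3 * b) : (ZMod 2)[X]) = (X ^ b) ^ 3 := by rw [← pow_mul]; congr 1; ring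
    rw [this]
    have : (X ^ (2 * b) : (ZMod 2)[X]) = (X ^ b) ^ 2 := by rw [← pow_mul]; congr 1; ring
    rw [this]
    generalize (X ^ b : (ZMod 2)[X]) = y
    linear_combination (-(y ^ 6 + y ^ 5 + 2 * y ^ 4 + 2 * y ^ 3 + y ^ 2 + y)) * h2
  have e4 : n ≠ 5 * a := by
    intro e
    refine no_small n a hn han hf (21 * a) (by omega) (by omega) ?_
    rw [e]
    have : (X ^ (21 * a) : (ZMod 2)[X]) = (X ^ a) ^ 21 := by rw [← pow_mul]; congr 1; ring
    rw [this]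
    have : (X ^ (5 * a) : (ZMod 2)[X]) = (X ^ a) ^ 5 := by rw [← pow_mul]; congr 1; ring
    rw [this]
    generalize (X ^ a : (ZMod 2)[X]) = y
    refine ⟨y ^ 16 + y ^ 12 + y ^ 11 + y ^ 8 + y ^ 6 + y ^ 4 + y ^ 3 + y ^ 2 + y + 1, ?_⟩
    linear_combination (-(y ^ 17 + y ^ 16 + y ^ 13 + y ^ 12 + y ^ 11 + y ^ 9 + y ^ 8 + y ^ 7 + y ^ 6 + y ^ 5 + y ^ 4 + y ^ 3 + y ^ 2 + y)) * h2
  have e5 : ∀ c, n = 5 * c → a ≠ 4 * c := by
    intro c hc e
    refine no_small n a hn han hf (21 * c) (by omega) (by omega) ?_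
    rw [hc, e]
    have : (X ^ (21 * c) : (ZMod 2)[X]) = (X ^ c) ^ 21 := by rw [← pow_mul]; congr 1; ring
    rw [this]
    have : (X ^ (5 * c) : (ZMod 2)[X]) = (X ^ c) ^ 5 := by rw [← pow_mul]; congr 1; ring
    rw [this]
    have : (X ^ (4 * c) : (ZMod 2)[X]) = (X ^ c) ^ 4 := by rw [← pow_mul]; congr 1; ring
    rw [this]
    generalize (X ^ c : (ZMod 2)[X]) = y
    refine ⟨y ^ 16 + y ^ 15 + y ^ 14 + y ^ 13 + y ^ 12 + y ^ 10 + y ^ 8 + y ^ 5 + y ^ 4 + 1, ?_⟩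
    linear_combination (-(y ^ 20 + y ^ 19 + y ^ 18 + y ^ 17 + y ^ 16 + y ^ 15 + y ^ 14 + y ^ 13 + y ^ 12 + y ^ 10 + y ^ 9 + y ^ 8 + y ^ 5 + y ^ 4)) * h2
  show HasPrimitivePentanomial n
  by_cases c1 : a % 5 = 0
  · exact case_one n a (a / 5) h4 ha0 han hf (by omega)
  by_cases c2 : n % 5 = 0
  · exact case_two n a (n / 5) h4 ha0 han hf (by omega) e4 (e5 _ (by omega))
  by_cases c3 : n % 5 = a % 5
  · exact case_three n a ((a + 4 * n) / 5) ((4 * a + n) / 5) h4 ha0 han hf (by omega) (by omega)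
  by_cases c4 : (a + n) % 5 = 0
  · exact case_four n a ((a + n) / 5) h4 ha0 han hf (by omega) e3
  by_cases c5 : (2 * a) % 5 = n % 5
  · exact case_five n a ((3 * a + n) / 5) ((a + 2 * n) / 5) h4 ha0 han hf (by omega) (by omega) e1
  · have c6 : (2 * n) % 5 = a % 5 := mod_five a n c1 c2 c3 c4 c5
    clear c1 c2 c3 c4 c5
    exact case_six n a ((a + 3 * n) / 5) ((2 * a + n) / 5) h4 ha0 han hf (by omega) (by omega) e2

end Pool.Agent.Results.MP_4f8f6c_nt.TwoModFour
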